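import Mathlib
import Pool.Agent.H35.LsE

set_option autoImplicit false

namespace Pool.Agent.Results.MP_2c0b9b_co.TwoDesigns

theorem result :
    ∀ k v : ℕ, 81 ≤ k → k + 81 ≤ v → (∀ i : ℕ, i ≤ 2 → 3 ∣ (v - i).choose (k - i)) →
      ∃ f : Finset (Fin v) → Fin 3, ∀ j : Fin 3, ∀ T : Finset (Fin v), T.card = 2 →
        3 * ((Finset.powersetCard k (Finset.univ : Finset (Fin v))).filter
          (fun B => f B = j ∧ T ⊆ B)).card = (v - 2).choose (k - 2) := by
  intro k v hk hv hdiv
  obtain ⟨d, ⟨f, hf⟩, hd⟩ := Pool.Agent.H35.Ls.large'' (X := Fin v) k hk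
    (by rw [Fintype.card_fin]; exact hv) (by rw [Fintype.card_fin]; exact hdiv)
  refine ⟨f, fun c T hT => ?_⟩
  have h := hd c T hT
  rw [← hf, Fintype.card_fin] at h
  have e : (∑ b ∈ Finset.powersetCard k Finset.univ,
      if f b = c then Pool.Agent.H35.Ls.ph b T else 0) =
      (((Finset.powersetCard k (Finset.univ : Finset (Fin v))).filter
          (fun B => f B = c ∧ T ⊆ B)).card : ℕ) := by
    rw [Finset.card_filter]
    push_cast
    refine Finset.sum_congr rfl fun S _ => ?_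
    unfold Pool.Agent.H35.Ls.ph
    by_cases h2 : T ⊆ S <;> by_cases h3 : f S = c <;> simp [h2, h3]
  rw [e] at h
  exact_mod_cast h

end Pool.Agent.Results.MP_2c0b9b_co.TwoDesigns
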